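import Pool.Agent.Q201.RC.Top
import Pool.Agent.Q201.RC.Trick
import Pool.Agent.Q201.RC.Thtf
import Pool.Agent.Q201.RC.W
import Pool.Agent.Q201.RC.W2
import Pool.Agent.Q201.RC.W3
import Pool.Agent.Q201.RC.F5
import Pool.Agent.Q201.RC.M3C
import Pool.Agent.Q201.RC.M3D
import Pool.Agent.Q201.RC.Fin3
import Pool.Agent.Q201.RC.Quin
import Pool.Agent.Q201.RC.Prod
import Pool.Agent.Q201.RC.F6
import Pool.Agent.Q201.RC.V2
import Pool.Agent.Q201.RC.Y
import Pool.Agent.Q201.RC.F2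

/-!
# Congruences for the coefficients of `R^5(q)/R(q^5)` and of its reciprocal

`q = X`.  `qP a = (q^a; q^5)_∞`, `R = qP 1 * qP 4 / (qP 2 * qP 3)` (the Rogers–Ramanujan
continued fraction without the factor `q^{1/5}`), `C = R(q)^5 / R(q^5)`, `D = R(q^5) / R(q)^5`.
-/

set_option autoImplicit false

namespace Pool.Agent.Results.MP_54ec50_nt.RogersRamanujanCongruences

open PowerSeries
open scoped PowerSeries.WithPiTopology

/-- `(q^a; q^5)_∞ = ∏_{k ≥ 0} (1 - q^{a+5k})` in `ℤ[[q]]` -/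
noncomputable def qP (a : ℕ) : ℤ⟦X⟧ := ∏' k : ℕ, (1 - X ^ (a + 5 * k))

/-- `R(q) = (q;q^5)_∞ (q^4;q^5)_∞ / ((q^2;q^5)_∞ (q^3;q^5)_∞)` -/
noncomputable def R : ℤ⟦X⟧ := qP 1 * qP 4 * invOfUnit (qP 2 * qP 3) 1

/-- `R(q^5)` -/
noncomputable def R5 : ℤ⟦X⟧ := PowerSeries.expand 5 (by norm_num) R

/-- the series `R^5(q)/R(q^5) = ∑ C(n) q^n` -/
noncomputable def CS : ℤ⟦X⟧ := R ^ 5 * invOfUnit R5 1

/-- the series `R(q^5)/R^5(q) = ∑ D(n) q^n` -/
noncomputable def DS : ℤ⟦X⟧ := R5 * invOfUnit (R ^ 5) 1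

open Q201.RC in
theorem qP_eq (a : ℕ) : qP a = Pa a := by
  unfold qP Pa
  exact tprod_congr fun i => by rw [add_comm]

open Q201.RC in
theorem jobs : Jobs where
  prod := prod
  dis := dis
  qa := qa
  qb := qb
  f1 := f1
  f2 := Pool.Agent.Q201.RCF2.f2
  f6 := f6
  f3a := f3a
  f3b := f3b
  f3c := f3c
  f3 := f3
  trick := Pool.Agent.Q201.RCTrick.trick
  thtf := Pool.Agent.Q201.RCThtf.thtf
  w := Pool.Agent.Q201.RCW.w
  w3 := Pool.Agent.Q201.RCW3.w3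
  w2 := Pool.Agent.Q201.RCW2.w2
  f5 := Pool.Agent.Q201.RCF5.f5
  m3c := Pool.Agent.Q201.RCM3C.m3c
  m3d := Pool.Agent.Q201.RCM3D.m3d
  fin3 := Pool.Agent.Q201.RCFin3.fin3
  rel := rel
  y := y
  step2 := step2
  v2 := v2
  fend := fend

open Q201.RC Q279.QS in
/-- All six congruences hold for every `n`.  The first five clauses say that the infinite
products converge and that `R`, `R(q^5)`, `CS`, `DS` are the quotients in the problem. -/
theorem result :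
    (∀ a : ℕ, 1 ≤ a → Multipliable fun k : ℕ => (1 - X ^ (a + 5 * k) : ℤ⟦X⟧)) ∧
    R * (qP 2 * qP 3) = qP 1 * qP 4 ∧
    (∀ n : ℕ, coeff n R5 = if 5 ∣ n then coeff (n / 5) R else 0) ∧
    CS * R5 = R ^ 5 ∧ DS * R ^ 5 = R5 ∧
    ∀ n : ℕ,
      (3 : ℤ) ∣ coeff (27 * n + 18) CS ∧ (3 : ℤ) ∣ coeff (27 * n + 18) DS ∧
      (4 : ℤ) ∣ coeff (16 * n + 12) CS ∧ (4 : ℤ) ∣ coeff (16 * n + 12) DS ∧
      (8 : ℤ) ∣ coeff (32 * n + 28) CS ∧ (8 : ℤ) ∣ coeff (32 * n + 28) DS := by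
  obtain ⟨h1, h2, h12, hc1, hc2, hp1, hp2, hp3, hp4⟩ := prod
  have hRm : R * (qP 2 * qP 3) = qP 1 * qP 4 := by
    rw [R, mul_assoc, mul_comm (invOfUnit _ _), mul_invOfUnit, mul_one]
    rw [qP_eq, qP_eq, map_mul, hp2, hp3]
    norm_num
  have hR : R = Rq := by
    have hR1 : R * T2 = T1 := by
      rw [h1, h2, ← qP_eq 1, ← qP_eq 2, ← qP_eq 3, ← qP_eq 4, ← hRm]
      ring
    exact mul_right_cancel₀ (ne_zero_of_const hc2) (hR1.trans (Rq_mul hc2).symm)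
  have hR5 : R5 = e5 Rq := by rw [R5, hR]
  have hRc : constantCoeff Rq = 1 := by
    have := congrArg constantCoeff (Rq_mul hc2)
    rw [map_mul, hc1, hc2, mul_one] at this
    exact this
  have hC : CS = Cq := by rw [CS, hR, hR5]; rfl
  have hD : DS = Dq := by rw [DS, hR, hR5]; rfl
  refine ⟨fun a ha => ?_, hRm, fun n => ?_, ?_, ?_, fun n => ?_⟩
  · refine (multQ 5 a (by norm_num) ha).congr fun i => ?_
    rw [add_comm]
  · rw [R5, coeff_expand]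
  · rw [CS, mul_assoc, mul_comm (invOfUnit _ _), mul_invOfUnit, mul_one]
    rw [hR5, constantCoeff_expand, hRc]
    norm_num
  · rw [DS, mul_assoc, mul_comm (invOfUnit _ _), mul_invOfUnit, mul_one]
    rw [hR, map_pow, hRc]
    norm_num
  · obtain ⟨⟨a1, a2⟩, ⟨a3, a4⟩, a5, a6⟩ := final jobs n
    rw [hC, hD]
    exact ⟨a1, a2, a3, a5, a4, a6⟩

end Pool.Agent.Results.MP_54ec50_nt.RogersRamanujanCongruences
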